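import Pool.Agent.Helper86.Ac.Chk

/-! WALK: the check of the five-point patterns. -/

namespace Pool.Agent.Helper69.Ac

noncomputable section

open Pool.Agent.Helper86.Acute Pool.Agent.Helper86.Ac

/-- conjunction -/
def an (x y : Bool) : Bool := Bool.casesOn x false y

/-- disjunction -/
def ro (x y : Bool) : Bool := Bool.casesOn x y true

/-- digit starting at bit `p` -/
def dg (A p : Nat) : Nat := Nat.mod (Nat.div A (Nat.pow 2 p)) 281474976710656

/-- test of a digit and its mirror image -/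
def dOK (A B p q : Nat) : Bool := an (Nat.ble (dg A p) 262144) (Nat.beq (dg B q) (dg A p))

/-- correct packing and no acute triples -/
def goodAB (A B : Nat) : Bool :=
  an (Nat.beq (Nat.mod A 281474976710656) 1) (
  an (Nat.beq (Nat.mod B 281474976710656) 1) (
  an (Nat.beq (Nat.div B (Nat.pow 2 576)) (Nat.div A (Nat.pow 2 576))) (
  an (Nat.beq (Nat.add (Nat.div A (Nat.pow 2 576)) (Nat.mul 131072
    (Nat.add (dg A 48) (Nat.add (dg A 96) (Nat.add (dg A 144) (Nat.add (dg A 192) (Nat.add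
    (dg A 240) (Nat.add (dg A 288) (Nat.add (dg A 336) (Nat.add (dg A 384) (Nat.add (dg A 432)
    (Nat.add (dg A 480) (dg A 528))))))))))))) 377957122048) (
  an (dOK A B 48 528) (an (dOK A B 96 480) (an (dOK A B 144 432) (an (dOK A B 192 384) (
  an (dOK A B 240 336) (an (dOK A B 288 288) (an (dOK A B 336 240) (an (dOK A B 384 192) (
  an (dOK A B 432 144) (an (dOK A B 480 96) (dOK A B 528 48))))))))))))))

/-- evaluation of a number before use -/
def nN (n : Nat) (k : Nat → Bool) : Bool := Nat.casesOn n (k 0) (fun m => k (Nat.succ m))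

/-- evaluation of the second form -/
def gB (B A : Nat) : Bool := nN B (goodAB A)

/-- correct packing and no acute triples -/
def goodF (f : F) : Bool := F.casesOn f (fun A B => nN A (gB B))

/-- digit `k` of `A'` is the digit of `A`, up to the sign given by `sg` -/
def rD (sg k p A' A : Nat) : Bool :=
  Bool.casesOn (Nat.beq (Nat.land (Nat.shiftRight sg k) 1) 1)
    (Nat.beq (dg A' p) (dg A p)) (Nat.beq (Nat.add (dg A' p) (dg A p)) 262144)

/-- digitwise relation -/
def relD (sg A' A : Nat) : Bool :=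
  an (rD sg 0 48 A' A) (an (rD sg 1 96 A' A) (an (rD sg 2 144 A' A) (an (rD sg 3 192 A' A) (
  an (rD sg 4 240 A' A) (an (rD sg 5 288 A' A) (an (rD sg 6 336 A' A) (
  an (rD sg 7 384 A' A) (an (rD sg 8 432 A' A) (an (rD sg 9 480 A' A)
    (rD sg 10 528 A' A))))))))))

/-- relation of two flags -/
def relB (t : Bool) (sg : Nat) (A' A : F) : Bool :=
  Bool.casesOn t (Nat.beq A'.A A.A) (relD sg A'.A A.A)

/-- equality of two flags -/
def eqF (f g : F) : Bool := an (Nat.beq f.A g.A) (Nat.beq f.B g.B)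

/-- the leaf reached in the tree `P.dn` -/
def lf (P : Pay) (s014 s024 s124 s034 s134 s234 : St) : X5 :=
  (((((P.dn.sel s014).sel s024).sel s124).sel s034).sel s134).sel s234

/-- comparison with the leaf after the exchange of 0 and 1 -/
def k0 (P : Pay) (bt : Nat) (g0 g4 : F) (y : X5) : Bool :=
  X5.casesOn y (fun _ bt' _ h1 _ _ h4 =>
    an (Nat.beq bt' bt) (an (eqF g0 h1) (relB P.t0 P.sg h4 g4)))

/-- comparison with the leaf after the exchange of 1 and 2 -/
def k1 (P : Pay) (bt : Nat) (g1 g4 : F) (y : X5) : Bool :=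
  X5.casesOn y (fun _ bt' _ _ h2 _ h4 =>
    an (Nat.beq bt' bt) (an (eqF g1 h2) (relB P.t1 P.sg h4 g4)))

/-- comparison with the leaf after the exchange of 2 and 3 -/
def k2 (P : Pay) (bt : Nat) (g2 g4 : F) (y : X5) : Bool :=
  X5.casesOn y (fun _ bt' _ _ _ h3 h4 =>
    an (Nat.beq bt' bt) (an (eqF g2 h3) (relB P.t2 P.sg h4 g4)))

/-- comparison with the leaf after the exchange of 3 and 4 -/
def k3 (bt : Nat) (g3 : F) (y : X5) : Bool :=
  X5.casesOn y (fun _ bt' _ _ _ _ h4 => an (Nat.beq bt' bt) (eqF g3 h4))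

/-- all comparisons -/
def kk (P : Pay) (x y0 y1 y2 y3 : X5) : Bool :=
  X5.casesOn x (fun ds bt g0 g1 g2 g3 g4 =>
  an (goodF g0) (an (goodF g1) (an (goodF g2) (an (goodF g3) (an (goodF g4) (
  an (k0 P bt g0 g4 y0) (an (k1 P bt g1 g4 y1) (an (k2 P bt g2 g4 y2) (an (k3 bt g3 y3) (
  ro (Nat.beq ds 0) (ro (Nat.blt y0.ds ds) (ro (Nat.blt y1.ds ds) (ro (Nat.blt y2.ds ds)
    (Nat.blt y3.ds ds))))))))))))))

/-- the check at a leaf -/
def chk (P : Pay) (s012 s013 s023 s123 s014 s024 s124 s034 s134 s234 : St) (x : X5) : Bool :=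
  kk P x
    (lf (oL (r12 s012) (r12 s013) s123 s023) (r12 s014) s124 s024 s134 s034 s234)
    (lf (oL (r23 s012) s023 s013 (r12 s123)) s024 s014 (r12 s124) s034 s234 s134)
    (lf (oL s013 s012 (r23 s023) (r23 s123)) s014 s034 s134 s024 s124 (r12 s234))
    (lf (oL s012 s014 s024 s124) s013 s023 s123 (r23 s034) (r23 s134) (r23 s234))

/-- the check for given first four points -/
def wk (s012 s013 s023 s123 : St) : Bool :=
  Pay.casesOn (oL s012 s013 s023 s123) (fun t0 t1 t2 sg f01 f02 f12 f03 f13 f23 dn =>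
    w4 (chk (Pay.mk t0 t1 t2 sg f01 f02 f12 f03 f13 f23 dn) s012 s013 s023 s123) dn)

end

end Pool.Agent.Helper69.Ac
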