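import Pool.Agent.Helper69.Ac.Chk

/-! WALK: kernel computation, part 0. -/

namespace Pool.Agent.Helper69.Ac

open Pool.Agent.Helper86.Acute Pool.Agent.Helper86.Ac

theorem waa : all4 (fun s => all4 (fun t => wk .a .a s t)) = true := by decide +kernel

end Pool.Agent.Helper69.Ac
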