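import Pool.Agent.Helper69.Ac.W0
import Pool.Agent.Helper69.Ac.W1
import Pool.Agent.Helper69.Ac.W2
import Pool.Agent.Helper69.Ac.W3
import Pool.Agent.Helper69.Ac.W4
import Pool.Agent.Helper69.Ac.W5
import Pool.Agent.Helper69.Ac.W6
import Pool.Agent.Helper69.Ac.W7
import Pool.Agent.Helper69.Ac.W8
import Pool.Agent.Helper69.Ac.W9
import Pool.Agent.Helper69.Ac.W10
import Pool.Agent.Helper69.Ac.W11
import Pool.Agent.Helper69.Ac.W12
import Pool.Agent.Helper69.Ac.W13
import Pool.Agent.Helper69.Ac.W14
import Pool.Agent.Helper69.Ac.W15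

/-! WALK: all parts of the kernel computation. -/

namespace Pool.Agent.Helper69.Ac

open Pool.Agent.Helper86.Acute Pool.Agent.Helper86.Ac

theorem all4_sound {f : St → Bool} (h : all4 f = true) (s : St) : f s = true := by
  unfold all4 at h
  cases h1 : f .a <;> cases h2 : f .b <;> cases h3 : f .c <;> cases h4 : f .d <;>
    rw [h1, h2, h3, h4] at h <;> first | (exact absurd h (by decide)) | skip
  cases s <;> assumption

theorem wk_all (s1 s2 s3 s4 : St) : wk s1 s2 s3 s4 = true := by
  cases s1 <;> cases s2
  · exact all4_sound (all4_sound waa s3) s4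
  · exact all4_sound (all4_sound wab s3) s4
  · exact all4_sound (all4_sound wac s3) s4
  · exact all4_sound (all4_sound wad s3) s4
  · exact all4_sound (all4_sound wba s3) s4
  · exact all4_sound (all4_sound wbb s3) s4
  · exact all4_sound (all4_sound wbc s3) s4
  · exact all4_sound (all4_sound wbd s3) s4
  · exact all4_sound (all4_sound wca s3) s4
  · exact all4_sound (all4_sound wcb s3) s4
  · exact all4_sound (all4_sound wcc s3) s4
  · exact all4_sound (all4_sound wcd s3) s4
  · exact all4_sound (all4_sound wda s3) s4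
  · exact all4_sound (all4_sound wdb s3) s4
  · exact all4_sound (all4_sound wdc s3) s4
  · exact all4_sound (all4_sound wdd s3) s4

end Pool.Agent.Helper69.Ac
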