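import Pool.Agent.Helper86.Ac.Goals
import Pool.Agent.Helper69.Ac.WAll

/-! WALK: soundness of the check of the five-point patterns. -/

namespace Pool.Agent.Helper69.Ac

noncomputable section

open Pool.Agent.Helper86.Acute Pool.Agent.Helper86.Ac

/-! ### lawful sets of states -/

/-- the conjunction over the set behaves as expected -/
def Law (m : MB) : Prop := ∀ x y z w, m.M x y z w = true →
  (m.has .a = true → x = true) ∧ (m.has .b = true → y = true) ∧
  (m.has .c = true → z = true) ∧ (m.has .d = true → w = true)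

theorem law0 : Law mb0 := by
  intro x y z w h
  refine ⟨?_, ?_, ?_, ?_⟩ <;> intro hh <;> exact absurd hh (by decide)

theorem law1 : Law mb1 := by
  intro x y z w h
  cases x <;> cases y <;> cases z <;> cases w <;>
    first
    | exact absurd h (by decide)
    | (refine ⟨?_, ?_, ?_, ?_⟩ <;> intro hh <;> first | rfl | exact absurd hh (by decide))
theorem law2 : Law mb2 := by
  intro x y z w h
  cases x <;> cases y <;> cases z <;> cases w <;>
    first
    | exact absurd h (by decide)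
    | (refine ⟨?_, ?_, ?_, ?_⟩ <;> intro hh <;> first | rfl | exact absurd hh (by decide))
theorem law3 : Law mb3 := by
  intro x y z w h
  cases x <;> cases y <;> cases z <;> cases w <;>
    first
    | exact absurd h (by decide)
    | (refine ⟨?_, ?_, ?_, ?_⟩ <;> intro hh <;> first | rfl | exact absurd hh (by decide))
theorem law4 : Law mb4 := by
  intro x y z w h
  cases x <;> cases y <;> cases z <;> cases w <;>
    first
    | exact absurd h (by decide)
    | (refine ⟨?_, ?_, ?_, ?_⟩ <;> intro hh <;> first | rfl | exact absurd hh (by decide))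
theorem law5 : Law mb5 := by
  intro x y z w h
  cases x <;> cases y <;> cases z <;> cases w <;>
    first
    | exact absurd h (by decide)
    | (refine ⟨?_, ?_, ?_, ?_⟩ <;> intro hh <;> first | rfl | exact absurd hh (by decide))
theorem law6 : Law mb6 := by
  intro x y z w h
  cases x <;> cases y <;> cases z <;> cases w <;>
    first
    | exact absurd h (by decide)
    | (refine ⟨?_, ?_, ?_, ?_⟩ <;> intro hh <;> first | rfl | exact absurd hh (by decide))
theorem law7 : Law mb7 := by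
  intro x y z w h
  cases x <;> cases y <;> cases z <;> cases w <;>
    first
    | exact absurd h (by decide)
    | (refine ⟨?_, ?_, ?_, ?_⟩ <;> intro hh <;> first | rfl | exact absurd hh (by decide))
theorem law8 : Law mb8 := by
  intro x y z w h
  cases x <;> cases y <;> cases z <;> cases w <;>
    first
    | exact absurd h (by decide)
    | (refine ⟨?_, ?_, ?_, ?_⟩ <;> intro hh <;> first | rfl | exact absurd hh (by decide))
theorem law9 : Law mb9 := by
  intro x y z w h
  cases x <;> cases y <;> cases z <;> cases w <;>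
    first
    | exact absurd h (by decide)
    | (refine ⟨?_, ?_, ?_, ?_⟩ <;> intro hh <;> first | rfl | exact absurd hh (by decide))
theorem law10 : Law mb10 := by
  intro x y z w h
  cases x <;> cases y <;> cases z <;> cases w <;>
    first
    | exact absurd h (by decide)
    | (refine ⟨?_, ?_, ?_, ?_⟩ <;> intro hh <;> first | rfl | exact absurd hh (by decide))
theorem law11 : Law mb11 := by
  intro x y z w h
  cases x <;> cases y <;> cases z <;> cases w <;>
    first
    | exact absurd h (by decide)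
    | (refine ⟨?_, ?_, ?_, ?_⟩ <;> intro hh <;> first | rfl | exact absurd hh (by decide))
theorem law12 : Law mb12 := by
  intro x y z w h
  cases x <;> cases y <;> cases z <;> cases w <;>
    first
    | exact absurd h (by decide)
    | (refine ⟨?_, ?_, ?_, ?_⟩ <;> intro hh <;> first | rfl | exact absurd hh (by decide))
theorem law13 : Law mb13 := by
  intro x y z w h
  cases x <;> cases y <;> cases z <;> cases w <;>
    first
    | exact absurd h (by decide)
    | (refine ⟨?_, ?_, ?_, ?_⟩ <;> intro hh <;> first | rfl | exact absurd hh (by decide))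
theorem law14 : Law mb14 := by
  intro x y z w h
  cases x <;> cases y <;> cases z <;> cases w <;>
    first
    | exact absurd h (by decide)
    | (refine ⟨?_, ?_, ?_, ?_⟩ <;> intro hh <;> first | rfl | exact absurd hh (by decide))
theorem law15 : Law mb15 := by
  intro x y z w h
  cases x <;> cases y <;> cases z <;> cases w <;>
    first
    | exact absurd h (by decide)
    | (refine ⟨?_, ?_, ?_, ?_⟩ <;> intro hh <;> first | rfl | exact absurd hh (by decide))

theorem law_bt (m k : ℕ) {x y : MB} (hx : Law x) (hy : Law y) : Law (bt m k x y) := by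
  unfold bt
  cases Nat.beq (Nat.land m k) 0
  · exact hy
  · exact hx

theorem law_mbs (m : ℕ) : Law (mbs m) := by
  unfold mbs
  exact law_bt _ _
    (law_bt _ _ (law_bt _ _ (law_bt _ _ law0 law1) (law_bt _ _ law2 law3))
      (law_bt _ _ (law_bt _ _ law4 law5) (law_bt _ _ law6 law7)))
    (law_bt _ _ (law_bt _ _ (law_bt _ _ law8 law9) (law_bt _ _ law10 law11))
      (law_bt _ _ (law_bt _ _ law12 law13) (law_bt _ _ law14 law15)))

theorem law_mbf (m : ℕ) : Law (mbf m) := by
  cases m with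
  | zero => exact law0
  | succ n => exact law_mbs _

/-! ### lawful trees -/

def W9 (D : N9) : Prop := Law D.m
def W8 (D : N8) : Prop := Law D.m ∧ ∀ s, W9 (D.sel s)
def W7 (D : N7) : Prop := Law D.m ∧ ∀ s, W8 (D.sel s)
def W6 (D : N6) : Prop := Law D.m ∧ ∀ s, W7 (D.sel s)
def W5 (D : N5) : Prop := Law D.m ∧ ∀ s, W6 (D.sel s)
def W4 (D : N4) : Prop := Law D.m ∧ ∀ s, W5 (D.sel s)

theorem tr9 (T p : ℕ) : W9 (dN9 T p) := law_mbf _
theorem tr8 (T p : ℕ) : W8 (dN8 T p) := ⟨law_mbf _, fun s => by cases s <;> exact tr9 _ _⟩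
theorem tr7 (T p : ℕ) : W7 (dN7 T p) := ⟨law_mbf _, fun s => by cases s <;> exact tr8 _ _⟩
theorem tr6 (T p : ℕ) : W6 (dN6 T p) := ⟨law_mbf _, fun s => by cases s <;> exact tr7 _ _⟩
theorem tr5 (T p : ℕ) : W5 (dN5 T p) := ⟨law_mbf _, fun s => by cases s <;> exact tr6 _ _⟩
theorem tr4 (T p : ℕ) : W4 (dN4 T p) := ⟨law_mbf _, fun s => by cases s <;> exact tr5 _ _⟩

theorem trO (s1 s2 s3 s4 : St) : W4 (oL s1 s2 s3 s4).dn := by
  cases s1 <;> cases s2 <;> cases s3 <;> cases s4 <;> exact tr4 _ _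

/-! ### soundness of the walk -/

theorem law_has {m : MB} (hm : Law m) {f : St → Bool}
    (h : m.M (f .a) (f .b) (f .c) (f .d) = true) {s : St} (hs : m.has s = true) : f s = true := by
  obtain ⟨h1, h2, h3, h4⟩ := hm _ _ _ _ h
  cases s
  · exact h1 hs
  · exact h2 hs
  · exact h3 hs
  · exact h4 hs

theorem w9_sound {f : St → X5 → Bool} {D : N9} (hD : W9 D) (h : w9 f D = true) {s : St}
    (hs : D.m.has s = true) : f s (D.sel s) = true := by
  have := law_has (f := fun s => f s (D.sel s)) hD h hs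
  exact this

theorem w8_sound {f : St → St → X5 → Bool} {D : N8} (hD : W8 D) (h : w8 f D = true) {s : St}
    (hs : D.m.has s = true) : w9 (f s) (D.sel s) = true := by
  have := law_has (f := fun s => w9 (f s) (D.sel s)) hD.1 h hs
  exact this

theorem w7_sound {f : St → St → St → X5 → Bool} {D : N7} (hD : W7 D) (h : w7 f D = true) {s : St}
    (hs : D.m.has s = true) : w8 (f s) (D.sel s) = true := by
  have := law_has (f := fun s => w8 (f s) (D.sel s)) hD.1 h hs
  exact this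

theorem w6_sound {f : St → St → St → St → X5 → Bool} {D : N6} (hD : W6 D) (h : w6 f D = true)
    {s : St} (hs : D.m.has s = true) : w7 (f s) (D.sel s) = true := by
  have := law_has (f := fun s => w7 (f s) (D.sel s)) hD.1 h hs
  exact this

theorem w5_sound {f : St → St → St → St → St → X5 → Bool} {D : N5} (hD : W5 D)
    (h : w5 f D = true) {s : St} (hs : D.m.has s = true) : w6 (f s) (D.sel s) = true := by
  have := law_has (f := fun s => w6 (f s) (D.sel s)) hD.1 h hs
  exact this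

theorem w4_sound {f : St → St → St → St → St → St → X5 → Bool} {D : N4} (hD : W4 D)
    (h : w4 f D = true) {s : St} (hs : D.m.has s = true) : w5 (f s) (D.sel s) = true := by
  have := law_has (f := fun s => w5 (f s) (D.sel s)) hD.1 h hs
  exact this

theorem wk_eq (s1 s2 s3 s4 : St) : wk s1 s2 s3 s4 =
    w4 (chk (oL s1 s2 s3 s4) s1 s2 s3 s4) (oL s1 s2 s3 s4).dn := by
  unfold wk
  cases oL s1 s2 s3 s4
  rfl

theorem chk_all (c : C5) (hc : c.mem = true) :
    chk c.P c.s012 c.s013 c.s023 c.s123 c.s014 c.s024 c.s124 c.s034 c.s134 c.s234 c.leaf =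
      true := by
  unfold C5.mem at hc
  simp only [Bool.and_eq_true] at hc
  obtain ⟨⟨⟨⟨⟨h1, h2⟩, h3⟩, h4⟩, h5⟩, h6⟩ := hc
  have h := wk_all c.s012 c.s013 c.s023 c.s123
  rw [wk_eq] at h
  have t4 := trO c.s012 c.s013 c.s023 c.s123
  have t5 := t4.2 c.s014
  have t6 := t5.2 c.s024
  have t7 := t6.2 c.s124
  have t8 := t7.2 c.s034
  have t9 := t8.2 c.s134
  exact w9_sound t9 (w8_sound t8 (w7_sound t7 (w6_sound t6 (w5_sound t5 (w4_sound t4 h h1) h2) h3)
    h4) h5) h6

/-! ### soundness of the tests -/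

theorem an_iff (x y : Bool) : an x y = true ↔ x = true ∧ y = true := by
  cases x <;> cases y <;> decide

theorem ro_iff (x y : Bool) : ro x y = true ↔ x = true ∨ y = true := by
  cases x <;> cases y <;> decide

theorem beq_iff (a b : ℕ) : Nat.beq a b = true ↔ a = b := Nat.beq_eq ▸ Iff.rfl

theorem ble_iff (a b : ℕ) : Nat.ble a b = true ↔ a ≤ b := Nat.ble_eq ▸ Iff.rfl

theorem blt_iff (a b : ℕ) : Nat.blt a b = true ↔ a < b := Nat.ble_eq ▸ Iff.rfl

theorem dg_eq (A p : ℕ) : dg A p = A / 2 ^ p % 2 ^ 48 := by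
  have : (281474976710656 : ℕ) = 2 ^ 48 := by norm_num
  unfold dg
  rw [this]
  rfl

theorem nN_eq (n : ℕ) (k : ℕ → Bool) : nN n k = k n := by
  cases n <;> rfl

theorem goodF_eq (f : F) : goodF f = goodAB f.A f.B := by
  cases f
  unfold goodF gB
  simp only [nN_eq]

theorem goodAB_sound {f : F} (h : goodF f = true) : Good f ∧ acZ f = 0 := by
  rw [goodF_eq] at h
  unfold goodAB dOK at h
  simp only [an_iff, beq_iff, ble_iff, dg_eq] at h
  obtain ⟨h1, h2, h3, h4, ⟨a0, b0⟩, ⟨a1, b1⟩, ⟨a2, b2⟩, ⟨a3, b3⟩, ⟨a4, b4⟩, ⟨a5, b5⟩, ⟨a6, b6⟩,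
    ⟨a7, b7⟩, ⟨a8, b8⟩, ⟨a9, b9⟩, ⟨a10, b10⟩⟩ := h
  have e48 : (281474976710656 : ℕ) = 2 ^ 48 := by norm_num
  have h1' : f.A % 2 ^ 48 = 1 := by rw [← e48]; exact h1
  have h2' : f.B % 2 ^ 48 = 1 := by rw [← e48]; exact h2
  have h3' : f.B / 2 ^ 576 = f.A / 2 ^ 576 := h3
  have h4' : f.A / 2 ^ 576 + 131072 * (f.A / 2 ^ 48 % 2 ^ 48 + (f.A / 2 ^ 96 % 2 ^ 48 +
    (f.A / 2 ^ 144 % 2 ^ 48 + (f.A / 2 ^ 192 % 2 ^ 48 + (f.A / 2 ^ 240 % 2 ^ 48 +
    (f.A / 2 ^ 288 % 2 ^ 48 + (f.A / 2 ^ 336 % 2 ^ 48 + (f.A / 2 ^ 384 % 2 ^ 48 +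
    (f.A / 2 ^ 432 % 2 ^ 48 + (f.A / 2 ^ 480 % 2 ^ 48 + f.A / 2 ^ 528 % 2 ^ 48)))))))))) =
    377957122048 := h4
  refine ⟨⟨h1', ?_, ?_, h2', h3', ?_⟩, ?_⟩
  · omega
  · intro k hk
    interval_cases k
    · exact a0
    · exact a1
    · exact a2
    · exact a3
    · exact a4
    · exact a5
    · exact a6
    · exact a7
    · exact a8
    · exact a9
    · exact a10
  · intro k hk
    interval_cases k
    · exact b10
    · exact b9
    · exact b8
    · exact b7
    · exact b6
    · exact b5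
    · exact b4
    · exact b3
    · exact b2
    · exact b1
    · exact b0
  · unfold acZ rr
    simp only [Finset.sum_range_succ, Finset.sum_range_zero]
    norm_num only at h4' ⊢
    omega

theorem bit_eq (sg k : ℕ) : Nat.beq (Nat.land (Nat.shiftRight sg k) 1) 1 = sg.testBit k := by
  have h : Nat.land (Nat.shiftRight sg k) 1 = sg / 2 ^ k % 2 := by
    have h1 : Nat.land (Nat.shiftRight sg k) 1 = (sg >>> k) &&& 1 := rfl
    rw [h1, Nat.and_one_is_mod, Nat.shiftRight_eq_div_pow]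
  rw [h, Nat.testBit_eq_decide_div_mod_eq]
  rcases Nat.mod_two_eq_zero_or_one (sg / 2 ^ k) with h | h <;> rw [h] <;> rfl

theorem rr_pos {f' f : F} {k : ℕ}
    (h : f'.A / 2 ^ (48 * (k + 1)) % 2 ^ 48 = f.A / 2 ^ (48 * (k + 1)) % 2 ^ 48) :
    rr f' k = 1 * rr f k := by
  unfold rr
  rw [h, one_mul]

theorem rr_neg {f' f : F} {k : ℕ}
    (h : f'.A / 2 ^ (48 * (k + 1)) % 2 ^ 48 + f.A / 2 ^ (48 * (k + 1)) % 2 ^ 48 = 262144) :
    rr f' k = (-1) * rr f k := by
  unfold rr
  generalize f'.A / 2 ^ (48 * (k + 1)) % 2 ^ 48 = u at h ⊢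
  generalize f.A / 2 ^ (48 * (k + 1)) % 2 ^ 48 = v at h ⊢
  have h3 : (u : ℤ) + v = 262144 := by exact_mod_cast h
  norm_num
  omega

theorem rD_sound {sg k : ℕ} {f' f : F} (h : rD sg k (48 * (k + 1)) f'.A f.A = true) :
    rr f' k = sgn true sg k * rr f k := by
  unfold rD at h
  rw [bit_eq] at h
  cases hb : sg.testBit k
  · rw [hb] at h
    have h' : Nat.beq (dg f'.A (48 * (k + 1))) (dg f.A (48 * (k + 1))) = true := h
    rw [beq_iff, dg_eq, dg_eq] at h'
    have hs : sgn true sg k = 1 := by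
      unfold sgn
      rw [hb]
      rfl
    rw [hs]
    exact rr_pos h'
  · rw [hb] at h
    have h' : Nat.beq (Nat.add (dg f'.A (48 * (k + 1))) (dg f.A (48 * (k + 1)))) 262144 = true :=
      h
    rw [beq_iff, dg_eq, dg_eq] at h'
    have hs : sgn true sg k = -1 := by
      unfold sgn
      rw [hb]
      rfl
    rw [hs]
    exact rr_neg h'

theorem relB_sound {t : Bool} {sg : ℕ} {f' f : F} (h : relB t sg f' f = true) :
    ∀ k, k < 11 → rr f' k = sgn t sg k * rr f k := by
  intro k hk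
  cases t
  · have h' : Nat.beq f'.A f.A = true := h
    rw [beq_iff] at h'
    have hs : sgn false sg k = 1 := rfl
    rw [hs]
    apply rr_pos
    rw [h']
  · have h' : relD sg f'.A f.A = true := h
    unfold relD at h'
    simp only [an_iff] at h'
    obtain ⟨h0, h1, h2, h3, h4, h5, h6, h7, h8, h9, h10⟩ := h'
    have key : k = 0 ∨ k = 1 ∨ k = 2 ∨ k = 3 ∨ k = 4 ∨ k = 5 ∨ k = 6 ∨ k = 7 ∨ k = 8 ∨ k = 9 ∨
      k = 10 := by omega
    rcases key with rfl | rfl | rfl | rfl | rfl | rfl | rfl | rfl | rfl | rfl | rfl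
    · exact rD_sound h0
    · exact rD_sound h1
    · exact rD_sound h2
    · exact rD_sound h3
    · exact rD_sound h4
    · exact rD_sound h5
    · exact rD_sound h6
    · exact rD_sound h7
    · exact rD_sound h8
    · exact rD_sound h9
    · exact rD_sound h10

theorem eqF_sound {f g : F} (h : eqF f g = true) : f = g := by
  unfold eqF at h
  rw [an_iff, beq_iff, beq_iff] at h
  cases f
  cases g
  simp only [F.mk.injEq]
  exact h

theorem k0_sound {P : Pay} {bt : ℕ} {g0 g4 : F} {y : X5} (h : k0 P bt g0 g4 y = true) :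
    y.bt = bt ∧ g0 = y.g1 ∧ ∀ k, k < 11 → rr y.g4 k = sgn P.t0 P.sg k * rr g4 k := by
  cases y
  unfold k0 at h
  simp only [an_iff, beq_iff] at h
  exact ⟨h.1, eqF_sound h.2.1, relB_sound h.2.2⟩

theorem k1_sound {P : Pay} {bt : ℕ} {g0 g4 : F} {y : X5} (h : k1 P bt g0 g4 y = true) :
    y.bt = bt ∧ g0 = y.g2 ∧ ∀ k, k < 11 → rr y.g4 k = sgn P.t1 P.sg k * rr g4 k := by
  cases y
  unfold k1 at h
  simp only [an_iff, beq_iff] at h
  exact ⟨h.1, eqF_sound h.2.1, relB_sound h.2.2⟩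

theorem k2_sound {P : Pay} {bt : ℕ} {g0 g4 : F} {y : X5} (h : k2 P bt g0 g4 y = true) :
    y.bt = bt ∧ g0 = y.g3 ∧ ∀ k, k < 11 → rr y.g4 k = sgn P.t2 P.sg k * rr g4 k := by
  cases y
  unfold k2 at h
  simp only [an_iff, beq_iff] at h
  exact ⟨h.1, eqF_sound h.2.1, relB_sound h.2.2⟩

theorem k3_sound {bt : ℕ} {g3 : F} {y : X5} (h : k3 bt g3 y = true) :
    y.bt = bt ∧ g3 = y.g4 := by
  cases y
  unfold k3 at h
  simp only [an_iff, beq_iff] at h
  exact ⟨h.1, eqF_sound h.2⟩

theorem kk_sound {P : Pay} {x y0 y1 y2 y3 : X5} (h : kk P x y0 y1 y2 y3 = true) :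
    (GoodX x ∧ acZ x.g0 = 0 ∧ acZ x.g1 = 0 ∧ acZ x.g2 = 0 ∧ acZ x.g3 = 0 ∧ acZ x.g4 = 0) ∧
    (y0.bt = x.bt ∧ y1.bt = x.bt ∧ y2.bt = x.bt ∧ y3.bt = x.bt) ∧
    (x.ds = 0 ∨ y0.ds < x.ds ∨ y1.ds < x.ds ∨ y2.ds < x.ds ∨ y3.ds < x.ds) ∧
    (x.g0 = y0.g1 ∧ x.g1 = y1.g2 ∧ x.g2 = y2.g3 ∧ x.g3 = y3.g4) ∧
    (∀ k, k < 11 → rr y0.g4 k = sgn P.t0 P.sg k * rr x.g4 k) ∧
    (∀ k, k < 11 → rr y1.g4 k = sgn P.t1 P.sg k * rr x.g4 k) ∧
    (∀ k, k < 11 → rr y2.g4 k = sgn P.t2 P.sg k * rr x.g4 k) := by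
  cases x with
  | mk ds bt g0 g1 g2 g3 g4 =>
    unfold kk at h
    simp only [an_iff, ro_iff, beq_iff, blt_iff] at h
    obtain ⟨h0, h1, h2, h3, h4, c0, c1, c2, c3, hd⟩ := h
    have h0 := goodAB_sound h0
    have h1 := goodAB_sound h1
    have h2 := goodAB_sound h2
    have h3 := goodAB_sound h3
    have h4 := goodAB_sound h4
    have c0 := k0_sound c0
    have c1 := k1_sound c1
    have c2 := k2_sound c2
    have c3 := k3_sound c3
    exact ⟨⟨⟨h0.1, h1.1, h2.1, h3.1, h4.1⟩, h0.2, h1.2, h2.2, h3.2, h4.2⟩,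
      ⟨c0.1, c1.1, c2.1, c3.1⟩, hd, ⟨c0.2.1, c1.2.1, c2.2.1, c3.2⟩, c0.2.2, c1.2.2, c2.2.2⟩

/-- Packet WALK. -/
theorem walk : WalkStmt := by
  intro c hc
  have h := kk_sound (chk_all c hc)
  exact h

end

end Pool.Agent.Helper69.Ac
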